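import Pool.Agent.V7H60.CV.Small
import Pool.Agent.N147.DR.Lat
import Pool.Agent.N147.DR.Typ
import Pool.Agent.N530.DR.Large
import Pool.Agent.N262.DR.Places
import Pool.Agent.N97.DR.Core
import Pool.Agent.N459.DR.Red
import Pool.Agent.N572.DR.Link
import Pool.Agent.N262.DR.Deg
import Pool.Agent.N572.DR.Diag
import Pool.Agent.N572.DR.KE
import Pool.Agent.N415.DR.VK
import Pool.Agent.N707.DR.VkG
import Pool.Agent.N966.CV.LargeB
import Pool.Agent.N966.CV.PlacesB
import Pool.Agent.N490.CV.CoreB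
import Pool.Agent.N328.CV.CoreV
import Pool.Agent.N488.CV.LinkC
import Pool.Agent.N498.CV.Redc
import Pool.Agent.N849.CV.CntC
import Pool.Agent.N265.CV.Htc
import Pool.Agent.N752.CV.UniC
import Pool.Agent.N752.CV.ZeroC
import Pool.Agent.N650.CV.FldC
import Pool.Agent.N776.CV.Sep
import Pool.Agent.N776.CV.VnC
import Pool.Agent.N297.CV.MainC

/-! The statements of the projects DR and CV. -/

set_option autoImplicit false

namespace Pool.Agent.V7H60.CV

open Pool.Agent.N753.DR

theorem large : StmLarge := Pool.Agent.N530.DR.t Pool.Agent.N147.DR.t Pool.Agent.N147.DR.typ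

theorem core : StmCore :=
  Pool.Agent.N97.DR.Core.t Pool.Agent.N147.DR.typ large small Pool.Agent.N262.DR.places

theorem deg : StmDeg :=
  Pool.Agent.N262.DR.deg core Pool.Agent.N459.DR.t Pool.Agent.N572.DR.Link.t

theorem ke : StmKE := Pool.Agent.N572.DR.KE.t Pool.Agent.N572.DR.Diag.t deg

theorem vk : StmVk := Pool.Agent.N415.DRVK.t ke

theorem vkG : StmVkG := Pool.Agent.N707.DRVkG.t vk

theorem coreB : StmCoreB :=
  Pool.Agent.N490.CV.CoreB.t Pool.Agent.N394.CV.t
    (Pool.Agent.N966.CV.LargeB.t Pool.Agent.N147.DR.t Pool.Agent.N394.CV.t) smallB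
    Pool.Agent.N966.CV.PlacesB.t

theorem coreV : StmCoreV := Pool.Agent.N328.CV.t coreB

theorem cntC : StmCntC :=
  Pool.Agent.N849.CVN.cntC coreV Pool.Agent.N488.CV.t Pool.Agent.N498.CV.t

theorem mainC : StmMainC :=
  Pool.Agent.N297.CV.MainC.t Pool.Agent.N572.DR.Diag.t cntC Pool.Agent.N265.CV.t
    Pool.Agent.N752.CV.t (Pool.Agent.N752.CV.t2 Pool.Agent.N498.CV.t)
    (Pool.Agent.N650.CV.FldC.t Pool.Agent.N265.CV.t) Pool.Agent.N776.CV.t

end Pool.Agent.V7H60.CV
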