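import Mathlib
import Pool.Agent.N394.CV.TypB
import Pool.Agent.N340.DR.Comb
import Pool.Agent.N262.DR.Box

/-! CV/SMALLB, part 1: primes of a number field above a rational prime. -/

set_option autoImplicit false

namespace Pool.Agent.V7H60.CV

open NumberField IsDedekindDomain Module

section

variable {K : Type} [Field K] [NumberField K]

theorem over_fin (p : ℕ) (hp : p.Prime) :
    {v : HeightOneSpectrum (𝓞 K) | (p : 𝓞 K) ∈ v.asIdeal}.Finite ∧
    {v : HeightOneSpectrum (𝓞 K) | (p : 𝓞 K) ∈ v.asIdeal}.ncard ≤ finrank ℚ K := by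
  classical
  have hp' : Prime (p : ℤ) := Nat.prime_iff_prime_int.1 hp
  have hprime : (Ideal.span {(p : ℤ)}).IsPrime := (Ideal.span_singleton_prime hp'.ne_zero).2 hp'
  have hne : Ideal.span {(p : ℤ)} ≠ ⊥ := by
    rw [Ne, Ideal.span_singleton_eq_bot]; exact hp'.ne_zero
  have hmax : (Ideal.span {(p : ℤ)}).IsMaximal := hprime.isMaximal hne
  set W := IsDedekindDomain.primesOverFinset (Ideal.span {(p : ℤ)}) (𝓞 K) with hW
  have hWcard : W.card ≤ finrank ℚ K :=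
    Ideal.card_primesOverFinset_le_finrank (𝓞 K) ℚ K hne
  have hmaps : ∀ v ∈ {v : HeightOneSpectrum (𝓞 K) | (p : 𝓞 K) ∈ v.asIdeal},
      v.asIdeal ∈ (W : Set (Ideal (𝓞 K))) := by
    intro v hv
    refine Finset.mem_coe.2 ((IsDedekindDomain.mem_primesOverFinset_iff hne _).2 ⟨v.isPrime, ⟨?_⟩⟩)
    refine hmax.eq_of_le ?_ ?_
    · intro h1
      apply v.isPrime.ne_top
      rw [Ideal.eq_top_iff_one] at h1 ⊢
      have h2 : algebraMap ℤ (𝓞 K) 1 ∈ v.asIdeal := h1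
      rwa [map_one] at h2
    · rw [Ideal.span_singleton_le_iff_mem]
      show algebraMap ℤ (𝓞 K) (p : ℤ) ∈ v.asIdeal
      simpa using hv
  have hinj : Set.InjOn (fun v : HeightOneSpectrum (𝓞 K) => v.asIdeal)
      {v : HeightOneSpectrum (𝓞 K) | (p : 𝓞 K) ∈ v.asIdeal} := by
    intro v _ v' _ h
    exact HeightOneSpectrum.ext h
  refine ⟨Set.Finite.of_injOn hmaps hinj W.finite_toSet, ?_⟩
  refine (Set.ncard_le_ncard_of_injOn _ hmaps hinj W.finite_toSet).trans ?_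
  rw [Set.ncard_coe_finset]
  exact hWcard

theorem exists_prime (v : HeightOneSpectrum (𝓞 K)) : ∃ p : ℕ, p.Prime ∧ (p : 𝓞 K) ∈ v.asIdeal := by
  have h : ∀ n : ℕ, n ≠ 0 → (n : 𝓞 K) ∈ v.asIdeal → ∃ p : ℕ, p.Prime ∧ (p : 𝓞 K) ∈ v.asIdeal := by
    intro n
    induction n using Nat.recOnMul with
    | zero => intro h; exact absurd rfl h
    | one =>
      intro _ h
      rw [Nat.cast_one] at h
      exact absurd ((Ideal.eq_top_iff_one _).2 h) v.isPrime.ne_top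
    | prime p hp => intro _ h; exact ⟨p, hp, h⟩
    | mul a b ha hb =>
      intro h0 h
      rw [Nat.cast_mul] at h
      rcases v.isPrime.mem_or_mem h with h1 | h1
      · exact ha (left_ne_zero_of_mul h0) h1
      · exact hb (right_ne_zero_of_mul h0) h1
  refine h (Ideal.absNorm v.asIdeal) ?_ (Ideal.absNorm_mem _)
  rw [Ne, Ideal.absNorm_eq_zero_iff]
  exact v.ne_bot

theorem prime_le_norm (v : HeightOneSpectrum (𝓞 K)) (p : ℕ) (hp : p.Prime)
    (hv : (p : 𝓞 K) ∈ v.asIdeal) : p ≤ Ideal.absNorm v.asIdeal := by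
  have h0 : Ideal.absNorm v.asIdeal ≠ 0 := by
    rw [Ne, Ideal.absNorm_eq_zero_iff]
    exact v.ne_bot
  refine Nat.le_of_dvd (Nat.pos_of_ne_zero h0) ?_
  by_contra hcon
  have hcop : Nat.Coprime p (Ideal.absNorm v.asIdeal) := (Nat.Prime.coprime_iff_not_dvd hp).2 hcon
  obtain ⟨a, b, hab⟩ := Nat.isCoprime_iff_coprime.2 hcop
  apply v.isPrime.ne_top
  rw [Ideal.eq_top_iff_one]
  have h1 : (1 : 𝓞 K) = (a : 𝓞 K) * (p : 𝓞 K) + (b : 𝓞 K) * (Ideal.absNorm v.asIdeal : 𝓞 K) := by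
    have := congrArg (fun z : ℤ => (z : 𝓞 K)) hab
    push_cast at this
    exact this.symm
  rw [h1]
  exact v.asIdeal.add_mem (v.asIdeal.mul_mem_left _ hv)
    (v.asIdeal.mul_mem_left _ (Ideal.absNorm_mem _))

/-- a prime ideal contains only one rational prime -/
theorem prime_unique (v : HeightOneSpectrum (𝓞 K)) (p q : ℕ) (hp : p.Prime) (hq : q.Prime)
    (hpv : (p : 𝓞 K) ∈ v.asIdeal) (hqv : (q : 𝓞 K) ∈ v.asIdeal) : p = q := by
  by_contra hne
  have hcop : Nat.Coprime p q := (Nat.coprime_primes hp hq).2 hne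
  obtain ⟨a, b, hab⟩ := Nat.isCoprime_iff_coprime.2 hcop
  apply v.isPrime.ne_top
  rw [Ideal.eq_top_iff_one]
  have h1 : (1 : 𝓞 K) = (a : 𝓞 K) * (p : 𝓞 K) + (b : 𝓞 K) * (q : 𝓞 K) := by
    have := congrArg (fun z : ℤ => (z : 𝓞 K)) hab
    push_cast at this
    exact this.symm
  rw [h1]
  exact v.asIdeal.add_mem (v.asIdeal.mul_mem_left _ hpv) (v.asIdeal.mul_mem_left _ hqv)

theorem norm_le_pow (v : HeightOneSpectrum (𝓞 K)) (p : ℕ) (hp : p.Prime)
    (hv : (p : 𝓞 K) ∈ v.asIdeal) : Ideal.absNorm v.asIdeal ≤ p ^ finrank ℚ K := by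
  have h1 : Ideal.absNorm v.asIdeal ∣ Ideal.absNorm (Ideal.span {(p : 𝓞 K)}) :=
    Ideal.absNorm_dvd_absNorm_of_le ((Ideal.span_singleton_le_iff_mem _).2 hv)
  rw [Ideal.absNorm_span_natCast, RingOfIntegers.rank] at h1
  exact Nat.le_of_dvd (pow_pos hp.pos _) h1

end

end Pool.Agent.V7H60.CV
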