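import Pool.Agent.V7H60.CV.All
import Pool.Agent.N753.DR.Crv
import Pool.Agent.Y728.AK.ProxK
import Pool.Agent.N31.FR.Tot
import Pool.Agent.N130.PC.Cnt

/-! One exceptional set of points of degree `r` of the line for all curves over the line. -/

set_option autoImplicit false

namespace Pool.Agent.V7H60.CV

open NumberField IsDedekindDomain Module Polynomial Height Pool.Agent.N753.DR
open Pool.Agent.Y729.RV (Nr cnt nr_fin cnt_eq base_cnt)
open Pool.Agent.W223.AC (lamF lamI mS)
open IntermediateField (AdjoinSimple.gen)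

/-- the property of the exceptional set -/
def ExcG (K : Type) [Field K] [NumberField K] (r : ℕ) (E : Set K[X]) : Prop :=
  ∀ (k : Type) [Field k] [NumberField k] [Algebra K k] (q : ℕ) (a : Fin q → k),
    Function.Injective a → (∀ j, (minpoly K (a j)).natDegree ≤ 2 * r + 1) →
    ∀ (al be ga de : K), al * de - be * ga ≠ 0 → ∀ (S : Finset ℕ)
    (κ : ℝ), 0 < κ → ∃ C : ℝ, ∀ (M : Type) [Field M] [NumberField M] [Algebra K M] [Algebra k M]
      [IsScalarTower K k M] (t x : M), IntermediateField.adjoin k {t} = ⊤ →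
      x * (algebraMap K M ga * t + algebraMap K M de) =
        algebraMap K M al * t + algebraMap K M be →
      algebraMap K M ga * t + algebraMap K M de ≠ 0 →
      (minpoly K x).natDegree = r → minpoly K x ∉ E → (∀ j, t ≠ algebraMap k M (a j)) →
      ∀ W : Finset (HeightOneSpectrum (𝓞 M)),
        (∀ w, (∀ p ∈ S, p ≠ 0 → (p : 𝓞 M) ∉ w.asIdeal) → w.valuation M t ≤ 1 →
          (∃ j, w.valuation M (t - algebraMap k M (a j)) < 1) → w ∈ W) →
        (q - κ) * Height.logHeight₁ t ≤ ∑ w ∈ W, lN w + C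

section

variable {K : Type} [Field K] [NumberField K] {r : ℕ} {E : Set K[X]}

theorem line (hE : ExcG K r E) (k : Type) [Field k] [NumberField k] [Algebra K k] (q : ℕ)
    (a : Fin q → k) (ha : Function.Injective a) (hdeg : ∀ j, (minpoly K (a j)).natDegree ≤ 2 * r + 1)
    (al be ga de : K) (hdet : al * de - be * ga ≠ 0) (S : Finset ℕ) (κ : ℝ) (hκ : 0 < κ) :
    ∃ C : ℝ, 0 ≤ C ∧ ∀ (L : Type) [Field L] [NumberField L] [Algebra K L] [Algebra k L]
      [IsScalarTower K k L] (t x : L),
      x * (algebraMap K L ga * t + algebraMap K L de) =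
        algebraMap K L al * t + algebraMap K L be →
      algebraMap K L ga * t + algebraMap K L de ≠ 0 →
      (minpoly K x).natDegree = r → minpoly K x ∉ E → (∀ j, t ≠ algebraMap k L (a j)) →
      ∀ W : Finset (HeightOneSpectrum (𝓞 (IntermediateField.adjoin k {t}))),
        (∀ w, (∀ p ∈ S, p ≠ 0 → (p : 𝓞 (IntermediateField.adjoin k {t})) ∉ w.asIdeal) →
          w.valuation (IntermediateField.adjoin k {t}) (AdjoinSimple.gen k t) ≤ 1 →
          (∃ j, w.valuation (IntermediateField.adjoin k {t})
            (AdjoinSimple.gen k t - algebraMap k _ (a j)) < 1) → w ∈ W) →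
        (q - κ) * logHeight₁ (AdjoinSimple.gen k t) ≤ ∑ w ∈ W, lN w + C := by
  obtain ⟨C, hC⟩ := hE k q a ha hdeg al be ga de hdet S κ hκ
  refine ⟨max C 0, le_max_right _ _, ?_⟩
  intro L _ _ _ _ _ t x hrel hne hr hxE hta W hW
  have itow : IsScalarTower K (IntermediateField.adjoin k {t}) L :=
    IsScalarTower.of_algebraMap_eq fun z => rfl
  have hgt : algebraMap (IntermediateField.adjoin k {t}) L (AdjoinSimple.gen k t) = t := rfl
  have hK : ∀ z : K, algebraMap (IntermediateField.adjoin k {t}) L
      (algebraMap K (IntermediateField.adjoin k {t}) z) = algebraMap K L z := fun z => rfl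
  have hden : algebraMap K (IntermediateField.adjoin k {t}) ga * AdjoinSimple.gen k t +
      algebraMap K (IntermediateField.adjoin k {t}) de ≠ 0 := by
    intro h
    apply hne
    have h2 := congrArg (algebraMap (IntermediateField.adjoin k {t}) L) h
    rw [map_add, map_mul, hK, hK, hgt, map_zero] at h2
    exact h2
  obtain ⟨x', hx'⟩ : ∃ x' : IntermediateField.adjoin k {t},
      x' = (algebraMap K (IntermediateField.adjoin k {t}) al * AdjoinSimple.gen k t +
        algebraMap K (IntermediateField.adjoin k {t}) be) /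
    (algebraMap K (IntermediateField.adjoin k {t}) ga * AdjoinSimple.gen k t +
      algebraMap K (IntermediateField.adjoin k {t}) de) := ⟨_, rfl⟩
  have hrel' : x' * (algebraMap K (IntermediateField.adjoin k {t}) ga * AdjoinSimple.gen k t +
      algebraMap K (IntermediateField.adjoin k {t}) de) =
      algebraMap K (IntermediateField.adjoin k {t}) al * AdjoinSimple.gen k t +
        algebraMap K (IntermediateField.adjoin k {t}) be := by
    rw [hx']
    exact div_mul_cancel₀ _ hden
  have hxx : algebraMap (IntermediateField.adjoin k {t}) L x' = x := by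
    have h2 := congrArg (algebraMap (IntermediateField.adjoin k {t}) L) hrel'
    rw [map_mul, map_add, map_mul, map_add, map_mul, hK, hK, hK, hK, hgt, ← hrel] at h2
    exact mul_right_cancel₀ hne h2
  have hmin : minpoly K x' = minpoly K x := by
    rw [← hxx]
    exact (minpoly.algebraMap_eq
      (algebraMap (IntermediateField.adjoin k {t}) L).injective x').symm
  have h1 := hC (IntermediateField.adjoin k {t}) (AdjoinSimple.gen k t) x' (gen_top t) hrel' hden
    (by rw [hmin]; exact hr) (by rw [hmin]; exact hxE)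
    (by
      intro j h
      apply hta j
      have h2 := congrArg (algebraMap (IntermediateField.adjoin k {t}) L) h
      rw [hgt, ← IsScalarTower.algebraMap_apply] at h2
      exact h2) W hW
  exact h1.trans (add_le_add le_rfl (le_max_left _ _))

/-- the truncated counting function on a curve -/
theorem covTrunc (hE : ExcG K r E) (k : Type) [Field k] [NumberField k] [Algebra K k]
    (A : Type) [CommRing A] [IsDedekindDomain A] [Algebra k A]
    [Algebra k[X] A] [IsScalarTower k k[X] A] [Module.Finite k[X] A] [FaithfulSMul k[X] A]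
    {q : ℕ} (hq : 1 ≤ q)
    (a : Fin q → k) (ha : Function.Injective a) (hdeg : ∀ j, (minpoly K (a j)).natDegree ≤ 2 * r + 1)
    (al be ga de : K) (hdet : al * de - be * ga ≠ 0) (u : Fin q → ℕ) (y : ∀ j, Fin (u j) → A)
    (D : Fin q → Ideal A) (hD : ∀ j, D j ≠ ⊥)
    (hyD : ∀ j i, ∀ e ∈ D j,
      y j i * e ∈ (Ideal.span {algebraMap k[X] A X - algebraMap k A (a j)}).radical)
    (ε : ℝ) (hε : 0 < ε) :
    ∃ C : ℝ, 0 ≤ C ∧ ∀ (L : Type) [Field L] [NumberField L] [Algebra K L] [Algebra k L]
      [IsScalarTower K k L] (φ : A →ₐ[k] L) (x : L),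
      x * (algebraMap K L ga * φ (algebraMap k[X] A X) + algebraMap K L de) =
        algebraMap K L al * φ (algebraMap k[X] A X) + algebraMap K L be →
      algebraMap K L ga * φ (algebraMap k[X] A X) + algebraMap K L de ≠ 0 →
      (minpoly K x).natDegree = r → minpoly K x ∉ E →
      (∀ j, φ (algebraMap k[X] A X) ≠ algebraMap k L (a j)) →
      (q - (∑ j, (finrank k (A ⧸ D j) : ℝ)) / finrank k[X] A - 2 * ε) *
            logHeight₁ (φ (algebraMap k[X] A X)) +
          finrank (IntermediateField.adjoin k {φ (algebraMap k[X] A X)}) L *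
            ldOf k (φ (algebraMap k[X] A X)) ≤
          Pool.Agent.W223.CV.cc ∅ (fun v : HeightOneSpectrum (𝓞 L) =>
            v.valuation L (φ (algebraMap k[X] A X)) ≤ 1 ∧
            ∃ j, v.valuation L (φ (algebraMap k[X] A X) - algebraMap k L (a j)) < 1 ∧
              ∀ i, v.valuation L (φ (y j i)) < 1) +
          Real.log |(discr L : ℝ)| + finrank ℚ L * C := by
  obtain ⟨T, C, hT, hC, hstep⟩ := Pool.Agent.N753.DR.step k A hq a u y D hD hyD ∅
    (fun p hp => absurd hp (Finset.notMem_empty p)) ε hε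
  obtain ⟨c, hc0, hline⟩ := line hE k q a ha hdeg al be ga de hdet T ε hε
  refine ⟨C + c, by positivity, ?_⟩
  intro L _ _ _ _ _ φ x hrel hne hr hxE hta
  refine hstep L φ c hc0 hta ?_
  intro W hW
  exact hline L (φ (algebraMap k[X] A X)) x hrel hne hr hxE hta W hW

/-- the proximity function on a curve -/
theorem covProx (hE : ExcG K r E) (k : Type) [Field k] [NumberField k] [Algebra K k]
    (A : Type) [CommRing A] [IsDedekindDomain A] [Algebra k A]
    [Algebra k[X] A] [IsScalarTower k k[X] A] [Module.Finite k[X] A] [FaithfulSMul k[X] A]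
    {q : ℕ} (hq : 1 ≤ q)
    (a : Fin q → k) (ha : Function.Injective a) (hdeg : ∀ j, (minpoly K (a j)).natDegree ≤ 2 * r + 1)
    (al be ga de : K) (hdet : al * de - be * ga ≠ 0) (s : Fin q → ℕ) (y : ∀ j, Fin (s j + 1) → A)
    (hy0 : ∀ j, y j 0 = algebraMap k[X] A X - algebraMap k A (a j))
    (hyr : ∀ j i, y j i ∈ (Ideal.span {algebraMap k[X] A X - algebraMap k A (a j)}).radical)
    (ε : ℝ) (hε : 0 < ε) :
    ∃ C : ℝ, 0 ≤ C ∧ ∀ (L : Type) [Field L] [NumberField L] [Algebra K L] [Algebra k L]
      [IsScalarTower K k L] (φ : A →ₐ[k] L) (x : L),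
      x * (algebraMap K L ga * φ (algebraMap k[X] A X) + algebraMap K L de) =
        algebraMap K L al * φ (algebraMap k[X] A X) + algebraMap K L be →
      algebraMap K L ga * φ (algebraMap k[X] A X) + algebraMap K L de ≠ 0 →
      (minpoly K x).natDegree = r → minpoly K x ∉ E →
      (∀ j, φ (algebraMap k[X] A X) ≠ algebraMap k L (a j)) →
      (∀ j, {v : HeightOneSpectrum (𝓞 L) | lamF (y j) (φ : A →+* L) v ≠ 0}.Finite) ∧
      ∀ S : Finset ℕ, (∀ p ∈ S, p.Prime) →
      (q - (∑ j, (finrank k (A ⧸ Ideal.span (Set.range (y j))) : ℝ)) / finrank k[X] A - 2 * ε) *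
            logHeight₁ (φ (algebraMap k[X] A X)) +
          finrank (IntermediateField.adjoin k {φ (algebraMap k[X] A X)}) L *
            ldOf k (φ (algebraMap k[X] A X)) +
          ∑ j, (∑ w : InfinitePlace L, (w.mult : ℝ) * lamI (y j) (φ : A →+* L) w +
            mS S (y j) (φ : A →+* L)) ≤
          Real.log |(discr L : ℝ)| + finrank ℚ L * (C + ∑ p ∈ S, Real.log p) := by
  classical
  obtain ⟨M, C, G, hM, hC, hG, hkey⟩ := Pool.Agent.Y728.AK.PX.proxK k A hq a s y hy0 hyr ε hε
  obtain ⟨C3, hC3, hbdd⟩ := bdd (k := k) G hG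
  obtain ⟨c, hc0, hline⟩ := line hE k q a ha hdeg al be ga de hdet M.primeFactors ε hε
  set C4 : ℝ := ∑ j, logHeight₁ (a j) with hC4
  have hC40 : 0 ≤ C4 := Finset.sum_nonneg fun j _ => zero_le_logHeight₁ _
  have hlog2 := Real.log_nonneg (one_le_two : (1 : ℝ) ≤ 2)
  refine ⟨C + c + (q + 1) * C3 + (q * C3 + C4 + q * Real.log 2), by positivity, ?_⟩
  intro L _ _ _ _ _ φ x hrel hne hr hxE hta
  set t := φ (algebraMap k[X] A X) with ht
  have hy : ∀ j, φ (y j 0) = t - algebraMap k L (a j) := by
    intro j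
    rw [hy0, map_sub, AlgHom.commutes]
  have hyne : ∀ j, (φ : A →+* L) (y j 0) ≠ 0 := by
    intro j
    show φ (y j 0) ≠ 0
    rw [hy]
    exact sub_ne_zero.2 (hta j)
  refine ⟨fun j => (Pool.Agent.Y557.OE.prox_le ∅ (y j) (φ : A →+* L) (hyne j)).1, fun S hS => ?_⟩
  have hnL : (0 : ℝ) < finrank ℚ L := by exact_mod_cast finrank_pos (R := ℚ) (M := L)
  have hfd : FiniteDimensional k L := FiniteDimensional.right ℚ k L
  have hF0 : (0 : ℝ) < finrank (IntermediateField.adjoin k {t}) L := by
    have : FiniteDimensional (IntermediateField.adjoin k {t}) L :=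
      FiniteDimensional.right ℚ (IntermediateField.adjoin k {t}) L
    exact_mod_cast finrank_pos (R := IntermediateField.adjoin k {t}) (M := L)
  have hFL : (finrank (IntermediateField.adjoin k {t}) L : ℝ) ≤ finrank ℚ L := by
    have h1 := finrank_mul_finrank ℚ (IntermediateField.adjoin k {t}) L
    have h2 : 0 < finrank ℚ (IntermediateField.adjoin k {t}) := finrank_pos
    have h3 : finrank (IntermediateField.adjoin k {t}) L ≤ finrank ℚ L := by
      rw [← h1]
      exact Nat.le_mul_of_pos_left _ h2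
    exact_mod_cast h3
  have hD0 := ldiscr_nonneg L
  have hRs : 0 ≤ ∑ p ∈ S, Real.log p := Finset.sum_nonneg fun p _ => Real.log_natCast_nonneg p
  by_cases hGt : aeval t G ≠ 0
  · have h1 := (hkey L φ hGt hta).2 S hS
    rw [← ht] at h1
    have hyg : ∀ j, AdjoinSimple.gen k t ≠
        algebraMap k (IntermediateField.adjoin k {t}) (a j) := by
      intro j h
      apply hta j
      have h2 := congrArg (algebraMap (IntermediateField.adjoin k {t}) L) h
      rw [← IsScalarTower.algebraMap_apply] at h2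
      exact h2
    have h2 := base_cnt (K := k) (F := IntermediateField.adjoin k {t}) (L := L)
      M.primeFactors a (AdjoinSimple.gen k t) hyg
    have h3 := hline L t x hrel hne hr hxE hta (nr_fin M.primeFactors hyg).toFinset (by
      intro w hw1 hw2 hw3
      rw [Set.Finite.mem_toFinset]
      exact ⟨fun p hp => hw1 p hp (Nat.prime_of_mem_primeFactors hp).ne_zero, hw2, hw3⟩)
    have h4 : cnt M.primeFactors a (AdjoinSimple.gen k t) =
        ∑ w ∈ (nr_fin M.primeFactors hyg).toFinset, lN w := cnt_eq _ hyg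
    rw [← h4] at h3
    have h5 : algebraMap (IntermediateField.adjoin k {t}) L (AdjoinSimple.gen k t) = t := rfl
    rw [h5] at h2
    have h6 := gen_ht (k := k) t
    have h7 : Real.log (mulHeight₁ t) = logHeight₁ t := rfl
    rw [h7] at h1
    have h8 := mul_le_mul_of_nonneg_left h3 hF0.le
    have h9 : (q - ε) * logHeight₁ t ≤
        finrank (IntermediateField.adjoin k {t}) L *
          cnt M.primeFactors a (AdjoinSimple.gen k t) +
        finrank (IntermediateField.adjoin k {t}) L * c := by
      rw [h6]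
      nlinarith
    have h10 : (finrank (IntermediateField.adjoin k {t}) L : ℝ) * c ≤ finrank ℚ L * c :=
      mul_le_mul_of_nonneg_right hFL hc0
    have h11 : ldOf k t = Real.log |(discr (IntermediateField.adjoin k {t}) : ℝ)| := rfl
    have h12 : 0 ≤ (finrank ℚ L : ℝ) * ((q + 1) * C3) := by positivity
    have h13 : 0 ≤ (finrank ℚ L : ℝ) * (q * C3 + C4 + q * Real.log 2) := by positivity
    rw [h11]
    nlinarith
  · rw [not_not] at hGt
    have hfd' : FiniteDimensional k (IntermediateField.adjoin k {t}) :=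
      FiniteDimensional.right ℚ k _
    have hg : aeval (AdjoinSimple.gen k t) G = 0 := by
      apply (algebraMap (IntermediateField.adjoin k {t}) L).injective
      rw [map_zero, ← aeval_algebraMap_apply]
      exact hGt
    have hdegg : (minpoly k (AdjoinSimple.gen k t)).natDegree =
        finrank k (IntermediateField.adjoin k {t}) := by
      rw [IntermediateField.minpoly_gen,
        IntermediateField.adjoin.finrank (IsIntegral.of_finite k t)]
    obtain ⟨h1, h2⟩ := hbdd (IntermediateField.adjoin k {t}) (AdjoinSimple.gen k t) hdegg hg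
    have h3 := gen_ht (k := k) t
    have h4 : logHeight₁ t ≤ finrank ℚ L * C3 := by
      rw [h3]
      calc (finrank (IntermediateField.adjoin k {t}) L : ℝ) * logHeight₁ (AdjoinSimple.gen k t) ≤
          finrank (IntermediateField.adjoin k {t}) L * C3 :=
            mul_le_mul_of_nonneg_left h1 hF0.le
        _ ≤ _ := mul_le_mul_of_nonneg_right hFL hC3
    have h5 : finrank (IntermediateField.adjoin k {t}) L * ldOf k t ≤ finrank ℚ L * C3 := by
      have h6 : ldOf k t ≤ C3 := h2
      have h7 : 0 ≤ ldOf k t := ldiscr_nonneg _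
      calc (finrank (IntermediateField.adjoin k {t}) L : ℝ) * ldOf k t ≤ finrank ℚ L * ldOf k t :=
            mul_le_mul_of_nonneg_right hFL h7
        _ ≤ _ := mul_le_mul_of_nonneg_left h6 hnL.le
    have h6 : (q - (∑ j, (finrank k (A ⧸ Ideal.span (Set.range (y j))) : ℝ)) / finrank k[X] A -
        2 * ε) * logHeight₁ t ≤ q * (finrank ℚ L * C3) := by
      have h7 : 0 ≤ (∑ j, (finrank k (A ⧸ Ideal.span (Set.range (y j))) : ℝ)) / finrank k[X] A := by
        positivity
      have h8 := zero_le_logHeight₁ t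
      calc (q - (∑ j, (finrank k (A ⧸ Ideal.span (Set.range (y j))) : ℝ)) / finrank k[X] A -
          2 * ε) * logHeight₁ t ≤
          q * logHeight₁ t := mul_le_mul_of_nonneg_right (by linarith) h8
        _ ≤ _ := mul_le_mul_of_nonneg_left h4 (Nat.cast_nonneg _)
    have hext : ∀ z : k, logHeight₁ (algebraMap k L z) ≤ finrank ℚ L * logHeight₁ z := by
      intro z
      rw [Pool.Agent.Y557.OE.ht_ext z]
      exact mul_le_mul_of_nonneg_right Pool.Agent.Y557.OE.fin_le (zero_le_logHeight₁ z)
    have h7 : ∑ j, (∑ w : InfinitePlace L, (w.mult : ℝ) * lamI (y j) (φ : A →+* L) w +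
            mS S (y j) (φ : A →+* L)) ≤
          finrank ℚ L * (q * C3 + C4 + q * Real.log 2) := by
      have h8 : ∀ j, ∑ w : InfinitePlace L, (w.mult : ℝ) * lamI (y j) (φ : A →+* L) w +
            mS S (y j) (φ : A →+* L) ≤
          finrank ℚ L * C3 + finrank ℚ L * logHeight₁ (a j) + finrank ℚ L * Real.log 2 := by
        intro j
        refine (Pool.Agent.Y557.OE.prox_le S (y j) (φ : A →+* L) (hyne j)).2.trans ?_
        show logHeight₁ (φ (y j 0)) ≤ _
        rw [hy]
        have h9 := hext (a j)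
        have h10 := logHeight₁_sub_le (K := L) t (algebraMap k L (a j))
        rw [NumberField.totalWeight_eq_finrank] at h10
        linarith
      refine (Finset.sum_le_sum fun j _ => h8 j).trans (le_of_eq ?_)
      rw [Finset.sum_add_distrib, Finset.sum_add_distrib, Finset.sum_const, Finset.sum_const,
        ← Finset.mul_sum, ← hC4, Finset.card_univ, Fintype.card_fin, nsmul_eq_mul, nsmul_eq_mul]
      ring
    have h8 : 0 ≤ (finrank ℚ L : ℝ) * (C + c) := by positivity
    have h9 : 0 ≤ (finrank ℚ L : ℝ) * ∑ p ∈ S, Real.log p := by positivity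
    have h10 : (q : ℝ) * (finrank ℚ L * C3) + finrank ℚ L * C3 =
      finrank ℚ L * ((q + 1) * C3) := by ring
    nlinarith

end

/-- the numbers of degree `r` and of absolute height at most `T` -/
theorem density (K : Type) [Field K] [NumberField K] (r : ℕ) (hr : 1 ≤ r) (E : Set K[X])
    (hE : ∀ U : ℝ, 0 ≤ U → {p | p ∈ E ∧ AtH r U p}.Finite ∧
    ({p | p ∈ E ∧ AtH r U p}.ncard : ℝ) ≤ 2 * Real.exp ((r + 1) * U - √U)) :
    ∃ c c' U₀ : ℝ, 0 < c ∧ ∀ U : ℝ, U₀ ≤ U → {p : K[X] | AtH r U p}.Finite ∧
      c * Real.exp ((r + 1) * U) ≤ ({p : K[X] | AtH r U p}.ncard : ℝ) ∧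
      ({p : K[X] | AtH r U p}.ncard : ℝ) ≤ c' * Real.exp ((r + 1) * U) ∧
      ({p : K[X] | p ∈ E ∧ AtH r U p}.ncard : ℝ) ≤
        2 / c * Real.exp (-√U) * ({p : K[X] | AtH r U p}.ncard : ℝ) := by
  obtain ⟨c, U₀, hc, hlow⟩ := Pool.Agent.N31.FR.t K r hr
  obtain ⟨C, hC, hup⟩ := Pool.Agent.N130.PC.Cnt.t K r hr
  refine ⟨c, C, max U₀ 0, hc, fun U hU => ?_⟩
  have hU1 : U₀ ≤ U := (le_max_left _ _).trans hU
  have hU0 : 0 ≤ U := (le_max_right _ _).trans hU
  obtain ⟨hfin, hle⟩ := hup U hU0
  obtain ⟨T, hT, hTc⟩ := hlow U hU1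
  have h1 : c * Real.exp ((r + 1) * U) ≤ ({p : K[X] | AtH r U p}.ncard : ℝ) := by
    refine hTc.trans ?_
    have h2 : (T : Set K[X]) ⊆ {p : K[X] | AtH r U p} := fun p hp => hT p hp
    have h3 := Set.ncard_le_ncard h2 hfin
    rw [Set.ncard_coe_finset] at h3
    exact_mod_cast h3
  refine ⟨hfin, h1, hle, ?_⟩
  refine (hE U hU0).2.trans ?_
  rw [sub_eq_add_neg, Real.exp_add]
  have h4 : 2 / c * Real.exp (-√U) * (c * Real.exp ((r + 1) * U)) =
      2 * (Real.exp ((r + 1) * U) * Real.exp (-√U)) := by
    field_simp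
  rw [← h4]
  exact mul_le_mul_of_nonneg_left h1 (by positivity)

end Pool.Agent.V7H60.CV
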