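import Pool.Agent.V7H60.CV.Arith

/-! CV/SMALLB, part 2: the local conditions and their translates. -/

set_option autoImplicit false

open Finset

namespace Pool.Agent.V7H60.CV

open NumberField IsDedekindDomain Module Pool.Agent.N753.DR Pool.Agent.N262.DR

section

variable {K L : Type} [Field K] [NumberField K] [Field L] [NumberField L] [Algebra K L] {m : ℕ}

/-- the local condition at `p` -/
def LC (β : Fin m → 𝓞 L) (Bad : Finset (HeightOneSpectrum (𝓞 K))) (c : Fin m → 𝓞 K) (p e : ℕ) :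
    Prop :=
  ∃ v ∉ Bad, (p : 𝓞 K) ∈ v.asIdeal ∧
    ((∃ w : HeightOneSpectrum (𝓞 L), w.asIdeal.LiesOver v.asIdeal ∧ evB K β c ∈ w.asIdeal ^ e) ∨
      (e = 2 ∧ NSB β c v))

/-- the facts on the primes which are not bad -/
def Good (β : Fin m → 𝓞 L) (i0 i1 : Fin m) (Bad : Finset (HeightOneSpectrum (𝓞 K))) : Prop :=
  ∀ v ∉ Bad,
    (∀ w : HeightOneSpectrum (𝓞 L), w.asIdeal.LiesOver v.asIdeal → β i0 ∉ w.asIdeal) ∧
    (∀ w : HeightOneSpectrum (𝓞 L), w.asIdeal.LiesOver v.asIdeal → ∀ (e : ℕ) (c : 𝓞 K),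
      algebraMap (𝓞 K) (𝓞 L) c ∈ w.asIdeal ^ e → c ∈ v.asIdeal ^ e) ∧
    (∀ p : ℕ, p.Prime → (p : 𝓞 K) ∈ v.asIdeal → ∀ (e : ℕ) (m : ℤ),
      (m : 𝓞 K) ∈ v.asIdeal ^ e → (p : ℤ) ^ e ∣ m) ∧
    (∀ w : HeightOneSpectrum (𝓞 L), w.asIdeal.LiesOver v.asIdeal → ∀ c0 c1 : 𝓞 K,
      algebraMap (𝓞 K) (𝓞 L) c0 * β i0 + algebraMap (𝓞 K) (𝓞 L) c1 * β i1 ∈ w.asIdeal →
      (Ideal.absNorm v.asIdeal < Ideal.absNorm w.asIdeal ∨
        ∃ w' : HeightOneSpectrum (𝓞 L), w'.asIdeal.LiesOver v.asIdeal ∧ w' ≠ w ∧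
          algebraMap (𝓞 K) (𝓞 L) c0 * β i0 + algebraMap (𝓞 K) (𝓞 L) c1 * β i1 ∈ w'.asIdeal) →
      c0 ∈ v.asIdeal ∧ c1 ∈ v.asIdeal) ∧
    {b : Ideal (𝓞 L) | IsTyp v b}.Finite ∧
      {b : Ideal (𝓞 L) | IsTyp v b}.ncard ≤ 2 * finrank K L ^ 2

variable {β : Fin m → 𝓞 L} {i0 i1 : Fin m} {Bad : Finset (HeightOneSpectrum (𝓞 K))}

/-- the translations -/
noncomputable def tr (K : Type) [Field K] [NumberField K] {m : ℕ} (i0 i1 : Fin m) (z : ℕ × ℕ) :
    Fin m → 𝓞 K :=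
  Pi.single i0 (z.1 : 𝓞 K) + Pi.single i1 (z.2 : 𝓞 K)

theorem ev_tr (β : Fin m → 𝓞 L) (i0 i1 : Fin m) (Q : Fin m → 𝓞 K) (z : ℕ × ℕ) :
    evB K β (Q + tr K i0 i1 z) = evB K β Q + ((z.1 : 𝓞 L) * β i0 + (z.2 : 𝓞 L) * β i1) := by
  rw [map_add, tr, map_add, Pool.Agent.N394.CV.evB_single, Pool.Agent.N394.CV.evB_single,
    map_natCast, map_natCast]

theorem ev_tr_sub (β : Fin m → 𝓞 L) (i0 i1 : Fin m) (Q : Fin m → 𝓞 K) (z z' : ℕ × ℕ) :
    evB K β (Q + tr K i0 i1 z) - evB K β (Q + tr K i0 i1 z') =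
      algebraMap (𝓞 K) (𝓞 L) (((z.1 : ℤ) - z'.1 : ℤ) : 𝓞 K) * β i0 +
        algebraMap (𝓞 K) (𝓞 L) (((z.2 : ℤ) - z'.2 : ℤ) : 𝓞 K) * β i1 := by
  rw [ev_tr, ev_tr]
  push_cast
  ring

theorem nat_eq_of_dvd {P a b : ℕ} (ha : a < P) (hb : b < P) (h : (P : ℤ) ∣ (a : ℤ) - b) :
    a = b := by
  have h1 : a ≡ b [MOD P] := by
    rw [Nat.modEq_iff_dvd]
    rw [← neg_sub]
    exact (dvd_neg).2 h
  exact h1.eq_of_lt_of_lt ha hb

theorem nat_eq_of_dvd' {p a b : ℕ} (h0 : a / p = b / p) (h : (p : ℤ) ∣ (a : ℤ) - b) :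
    a = b := by
  have h1 : a ≡ b [MOD p] := by
    rw [Nat.modEq_iff_dvd]
    rw [← neg_sub]
    exact (dvd_neg).2 h
  have h2 := Nat.div_add_mod a p
  have h3 := Nat.div_add_mod b p
  have h4 : a % p = b % p := h1
  rw [← h2, ← h3, h0, h4]

/-- a power of a prime: the second coordinate determines the first -/
theorem inj_pow (hG : Good β i0 i1 Bad) {p e : ℕ} (hp : p.Prime) {v : HeightOneSpectrum (𝓞 K)}
    (hv : v ∉ Bad) (hpv : (p : 𝓞 K) ∈ v.asIdeal) {w : HeightOneSpectrum (𝓞 L)}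
    (hw : w.asIdeal.LiesOver v.asIdeal) (Q : Fin m → 𝓞 K) {z z' : ℕ × ℕ} (hz : z.1 < p ^ e)
    (hz' : z'.1 < p ^ e) (h : evB K β (Q + tr K i0 i1 z) ∈ w.asIdeal ^ e)
    (h' : evB K β (Q + tr K i0 i1 z') ∈ w.asIdeal ^ e) (h2 : z.2 = z'.2) : z = z' := by
  obtain ⟨g0, g1, g2, -⟩ := hG v hv
  have h3 := (w.asIdeal ^ e).sub_mem h h'
  rw [ev_tr_sub, h2, sub_self, Int.cast_zero, map_zero, zero_mul, add_zero, mul_comm] at h3
  have hp' := w.isPrime
  rcases Ideal.IsPrime.mul_mem_pow w.asIdeal h3 with h4 | h4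
  · exact absurd h4 (g0 w hw)
  · have h5 := g2 p hp hpv e _ (g1 w hw e _ h4)
    exact Prod.ext (nat_eq_of_dvd hz hz' (by exact_mod_cast h5)) h2

/-- the types which are not squares: the quotients determine the pair -/
theorem inj_two (hG : Good β i0 i1 Bad) {p : ℕ} (hp : p.Prime) {v : HeightOneSpectrum (𝓞 K)}
    (hv : v ∉ Bad) (hpv : (p : 𝓞 K) ∈ v.asIdeal) {w : HeightOneSpectrum (𝓞 L)}
    (hw : w.asIdeal.LiesOver v.asIdeal) {b : Ideal (𝓞 L)} (hb : b ≤ w.asIdeal)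
    (hb' : Ideal.absNorm v.asIdeal < Ideal.absNorm w.asIdeal ∨
        ∃ w' : HeightOneSpectrum (𝓞 L), w'.asIdeal.LiesOver v.asIdeal ∧ w' ≠ w ∧
          b ≤ w'.asIdeal) (Q : Fin m → 𝓞 K) {z z' : ℕ × ℕ}
    (h : evB K β (Q + tr K i0 i1 z) ∈ b) (h' : evB K β (Q + tr K i0 i1 z') ∈ b)
    (h1 : z.1 / p = z'.1 / p) (h2 : z.2 / p = z'.2 / p) : z = z' := by
  obtain ⟨g0, g1, g2, g3, -⟩ := hG v hv
  have h3 := b.sub_mem h h'
  rw [ev_tr_sub] at h3
  have h4 := g3 w hw _ _ (hb h3) (by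
    rcases hb' with hb' | ⟨w', hw', hne, hb'⟩
    · exact Or.inl hb'
    · exact Or.inr ⟨w', hw', hne, hb' h3⟩)
  have h5 := g2 p hp hpv 1 _ (by rw [pow_one]; exact h4.1)
  have h6 := g2 p hp hpv 1 _ (by rw [pow_one]; exact h4.2)
  rw [pow_one] at h5 h6
  exact Prod.ext (nat_eq_of_dvd' h1 h5) (nat_eq_of_dvd' h2 h6)

open scoped Classical in
/-- a type: at most `p ^ 2` translates -/
theorem card_typ (hG : Good β i0 i1 Bad) {p : ℕ} (hp : p.Prime) {v : HeightOneSpectrum (𝓞 K)}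
    (hv : v ∉ Bad) (hpv : (p : 𝓞 K) ∈ v.asIdeal) {b : Ideal (𝓞 L)} (hb : IsTyp v b)
    (Q : Fin m → 𝓞 K) :
    ((range (p ^ 2) ×ˢ range (p ^ 2)).filter fun z => evB K β (Q + tr K i0 i1 z) ∈ b).card ≤
      p ^ 2 := by
  have hp0 := hp.pos
  have hcase : ∀ w : HeightOneSpectrum (𝓞 L), w.asIdeal.LiesOver v.asIdeal → b ≤ w.asIdeal →
      (Ideal.absNorm v.asIdeal < Ideal.absNorm w.asIdeal ∨
        ∃ w' : HeightOneSpectrum (𝓞 L), w'.asIdeal.LiesOver v.asIdeal ∧ w' ≠ w ∧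
          b ≤ w'.asIdeal) →
      ((range (p ^ 2) ×ˢ range (p ^ 2)).filter fun z => evB K β (Q + tr K i0 i1 z) ∈ b).card ≤
        p ^ 2 := by
    intro w hw hbw hb'
    have h1 : ((range (p ^ 2) ×ˢ range (p ^ 2)).filter
        fun z => evB K β (Q + tr K i0 i1 z) ∈ b).card ≤ (range p ×ˢ range p).card := by
      refine Finset.card_le_card_of_injOn (fun z => (z.1 / p, z.2 / p)) ?_ ?_
      · intro z hz
        rw [mem_coe, mem_filter, mem_product, mem_range, mem_range] at hz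
        rw [mem_coe, mem_product, mem_range, mem_range]
        exact ⟨Nat.div_lt_of_lt_mul (by rw [← sq]; exact hz.1.1),
          Nat.div_lt_of_lt_mul (by rw [← sq]; exact hz.1.2)⟩
      · intro z hz z' hz' hzz
        rw [mem_coe, mem_filter] at hz hz'
        exact inj_two hG hp hv hpv hw hbw hb' Q hz.2 hz'.2 (congrArg Prod.fst hzz)
          (congrArg Prod.snd hzz)
    refine h1.trans (le_of_eq ?_)
    rw [card_product, card_range, sq]
  obtain ⟨w, hw, h | ⟨w', hw', hne, h⟩ | ⟨h, hlt⟩⟩ := hb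
  · have h1 : ((range (p ^ 2) ×ˢ range (p ^ 2)).filter
        fun z => evB K β (Q + tr K i0 i1 z) ∈ b).card ≤ (range (p ^ 2)).card := by
      refine Finset.card_le_card_of_injOn (fun z => z.2) ?_ ?_
      · intro z hz
        rw [mem_coe, mem_filter, mem_product] at hz
        exact hz.1.2
      · intro z hz z' hz' hzz
        rw [mem_coe, mem_filter, mem_product, mem_range, mem_range, h] at hz hz'
        exact inj_pow hG hp hv hpv hw Q hz.1.1 hz'.1.1 hz.2 hz'.2 hzz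
    rwa [card_range] at h1
  · refine hcase w hw (by rw [h]; exact Ideal.mul_le_left) (Or.inr ⟨w', hw', hne, ?_⟩)
    rw [h]; exact Ideal.mul_le_right
  · exact hcase w hw (by rw [h]) (Or.inl hlt)

/-- the number of conditions -/
noncomputable def tau (K L : Type) [Field K] [NumberField K] [Field L] [NumberField L]
    [Algebra K L] : ℕ := finrank ℚ L + finrank ℚ K * (2 * finrank K L ^ 2)

open scoped Classical in
/-- the number of translates at `p` -/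
theorem card_loc (hG : Good β i0 i1 Bad) {p e : ℕ} (hp : p.Prime) (Q : Fin m → 𝓞 K) :
    ((range (p ^ e) ×ˢ range (p ^ e)).filter
      fun z => LC β Bad (Q + tr K i0 i1 z) p e).card ≤ tau K L * p ^ e := by
  set W := (over_fin (K := L) p hp).1.toFinset with hW
  set V := (over_fin (K := K) p hp).1.toFinset.filter (fun v => v ∉ Bad) with hV
  have hWc : W.card ≤ finrank ℚ L := by
    rw [hW, ← Set.ncard_eq_toFinset_card _ (over_fin (K := L) p hp).1]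
    exact (over_fin (K := L) p hp).2
  have hVc : V.card ≤ finrank ℚ K := by
    refine (card_filter_le _ _).trans ?_
    rw [← Set.ncard_eq_toFinset_card _ (over_fin (K := K) p hp).1]
    exact (over_fin (K := K) p hp).2
  set F1 : HeightOneSpectrum (𝓞 L) → Finset (ℕ × ℕ) := fun w =>
    (range (p ^ e) ×ˢ range (p ^ e)).filter fun z => ∃ v ∉ Bad, (p : 𝓞 K) ∈ v.asIdeal ∧
      w.asIdeal.LiesOver v.asIdeal ∧ evB K β (Q + tr K i0 i1 z) ∈ w.asIdeal ^ e with hF1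
  set TY : HeightOneSpectrum (𝓞 K) → Finset (Ideal (𝓞 L)) := fun v =>
    (Pool.Agent.N147.DR.typ_fin (L := L) v).1.toFinset with hTY
  set F2 : HeightOneSpectrum (𝓞 K) → Finset (ℕ × ℕ) := fun v =>
    (TY v).biUnion fun b => (range (p ^ e) ×ˢ range (p ^ e)).filter fun z => e = 2 ∧
      evB K β (Q + tr K i0 i1 z) ∈ b with hF2
  have hsub : ((range (p ^ e) ×ˢ range (p ^ e)).filter
      fun z => LC β Bad (Q + tr K i0 i1 z) p e) ⊆ W.biUnion F1 ∪ V.biUnion F2 := by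
    intro z hz
    rw [mem_filter] at hz
    obtain ⟨hz0, v, hv, hpv, ⟨w, hw, hz1⟩ | ⟨he, b, hb, hz1⟩⟩ := hz
    · rw [mem_union, mem_biUnion]
      refine Or.inl ⟨w, ?_, ?_⟩
      · rw [hW, Set.Finite.mem_toFinset]
        show (p : 𝓞 L) ∈ w.asIdeal
        have := (Pool.Agent.N147.DR.under_mem hw (p : 𝓞 K)).2 hpv
        rwa [map_natCast] at this
      · rw [hF1, mem_filter]
        exact ⟨hz0, v, hv, hpv, hw, hz1⟩
    · rw [mem_union]
      right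
      rw [mem_biUnion]
      refine ⟨v, ?_, ?_⟩
      · rw [hV, mem_filter, Set.Finite.mem_toFinset]
        exact ⟨hpv, hv⟩
      · rw [hF2, mem_biUnion]
        refine ⟨b, ?_, ?_⟩
        · rw [hTY, Set.Finite.mem_toFinset]
          exact hb
        · rw [mem_filter]
          exact ⟨hz0, he, hz1⟩
  have h1 : (W.biUnion F1).card ≤ finrank ℚ L * p ^ e := by
    refine (card_biUnion_le_card_mul W F1 (p ^ e) ?_).trans (Nat.mul_le_mul_right _ hWc)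
    intro w _
    have h1 : (F1 w).card ≤ (range (p ^ e)).card := by
      refine Finset.card_le_card_of_injOn (fun z => z.2) ?_ ?_
      · intro z hz
        rw [mem_coe, hF1, mem_filter, mem_product] at hz
        exact hz.1.2
      · intro z hz z' hz' hzz
        rw [mem_coe, hF1, mem_filter, mem_product, mem_range, mem_range] at hz hz'
        obtain ⟨⟨hz0, -⟩, v, hv, hpv, hw, hz1⟩ := hz
        obtain ⟨⟨hz0', -⟩, v', hv', hpv', hw', hz1'⟩ := hz'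
        exact inj_pow hG hp hv hpv hw Q hz0 hz0' hz1 hz1' hzz
    rwa [card_range] at h1
  have h2 : (V.biUnion F2).card ≤ finrank ℚ K * (2 * finrank K L ^ 2 * p ^ e) := by
    refine (card_biUnion_le_card_mul V F2 (2 * finrank K L ^ 2 * p ^ e) ?_).trans
      (Nat.mul_le_mul_right _ hVc)
    intro v hv
    rw [hV, mem_filter, Set.Finite.mem_toFinset] at hv
    obtain ⟨hpv, hvB⟩ := hv
    rw [hF2]
    refine (card_biUnion_le_card_mul (TY v) _ (p ^ e) ?_).trans (Nat.mul_le_mul_right _ ?_)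
    · intro b hb
      rw [hTY, Set.Finite.mem_toFinset] at hb
      by_cases he : e = 2
      · subst he
        refine le_trans (le_of_eq ?_) (card_typ hG hp hvB hpv hb Q)
        congr 1
        refine filter_congr fun z _ => ?_
        simp
      · rw [filter_false_of_mem (fun z _ h => he h.1), card_empty]
        exact Nat.zero_le _
    · rw [hTY, ← Set.ncard_eq_toFinset_card _ (Pool.Agent.N147.DR.typ_fin (L := L) v).1]
      exact (Pool.Agent.N147.DR.typ_fin (L := L) v).2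
  calc _ ≤ (W.biUnion F1 ∪ V.biUnion F2).card := card_le_card hsub
    _ ≤ (W.biUnion F1).card + (V.biUnion F2).card := card_union_le _ _
    _ ≤ finrank ℚ L * p ^ e + finrank ℚ K * (2 * finrank K L ^ 2 * p ^ e) := Nat.add_le_add h1 h2
    _ = tau K L * p ^ e := by rw [tau]; ring

/-- reduction modulo `p ^ e` -/
theorem mod_mem {p e : ℕ} (Q : Fin m → 𝓞 K) (z : ℕ × ℕ) {I : Ideal (𝓞 L)}
    (hI : ((p ^ e : ℕ) : 𝓞 L) ∈ I) (h : evB K β (Q + tr K i0 i1 z) ∈ I) :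
    evB K β (Q + tr K i0 i1 (z.1 % p ^ e, z.2 % p ^ e)) ∈ I := by
  rw [ev_tr] at h ⊢
  have e1 : ((z.1 % p ^ e : ℕ) : 𝓞 L) = (z.1 : 𝓞 L) - ((p ^ e : ℕ) : 𝓞 L) * (z.1 / p ^ e : ℕ) := by
    rw [eq_sub_iff_add_eq]
    exact_mod_cast Nat.mod_add_div z.1 (p ^ e)
  have e2 : ((z.2 % p ^ e : ℕ) : 𝓞 L) = (z.2 : 𝓞 L) - ((p ^ e : ℕ) : 𝓞 L) * (z.2 / p ^ e : ℕ) := by
    rw [eq_sub_iff_add_eq]
    exact_mod_cast Nat.mod_add_div z.2 (p ^ e)
  simp only
  rw [e1, e2]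
  have e3 : evB K β Q + (((z.1 : 𝓞 L) - ((p ^ e : ℕ) : 𝓞 L) * (z.1 / p ^ e : ℕ)) * β i0 +
      ((z.2 : 𝓞 L) - ((p ^ e : ℕ) : 𝓞 L) * (z.2 / p ^ e : ℕ)) * β i1) =
      (evB K β Q + ((z.1 : 𝓞 L) * β i0 + (z.2 : 𝓞 L) * β i1)) -
        ((z.1 / p ^ e : ℕ) * β i0 + (z.2 / p ^ e : ℕ) * β i1) * ((p ^ e : ℕ) : 𝓞 L) := by ring
  rw [e3]
  exact I.sub_mem h (I.mul_mem_left _ hI)

theorem mod_LC {p e : ℕ} (Q : Fin m → 𝓞 K) (z : ℕ × ℕ)
    (h : LC β Bad (Q + tr K i0 i1 z) p e) :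
    LC β Bad (Q + tr K i0 i1 (z.1 % p ^ e, z.2 % p ^ e)) p e := by
  obtain ⟨v, hv, hpv, ⟨w, hw, h1⟩ | ⟨he, b, hb, h1⟩⟩ := h
  · have hpw : (p : 𝓞 L) ∈ w.asIdeal := by
      have := (Pool.Agent.N147.DR.under_mem hw (p : 𝓞 K)).2 hpv
      rwa [map_natCast] at this
    refine ⟨v, hv, hpv, Or.inl ⟨w, hw, mod_mem Q z ?_ h1⟩⟩
    rw [Nat.cast_pow]
    exact Ideal.pow_mem_pow hpw e
  · have hpw : ∀ w : HeightOneSpectrum (𝓞 L), w.asIdeal.LiesOver v.asIdeal →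
        (p : 𝓞 L) ∈ w.asIdeal := by
      intro w hw
      have := (Pool.Agent.N147.DR.under_mem hw (p : 𝓞 K)).2 hpv
      rwa [map_natCast] at this
    refine ⟨v, hv, hpv, Or.inr ⟨he, b, hb, mod_mem Q z ?_ h1⟩⟩
    rw [Nat.cast_pow, he]
    obtain ⟨w, hw, h | ⟨w', hw', hne, h⟩ | ⟨h, hlt⟩⟩ := hb
    · rw [h]
      exact Ideal.pow_mem_pow (hpw w hw) 2
    · rw [h, sq]
      exact Ideal.mul_mem_mul (hpw w hw) (hpw w' hw')
    · rw [h, sq]
      exact w.asIdeal.mul_mem_left _ (hpw w hw)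

end

end Pool.Agent.V7H60.CV
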