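import Pool.Agent.V7H60.CV.SmallB

/-! DR/SMALL from CV/SMALLB. -/

set_option autoImplicit false

namespace Pool.Agent.V7H60.CV

open NumberField IsDedekindDomain Module Polynomial Pool.Agent.N753.DR

theorem small : StmSmall := by
  intro K L _ _ _ _ _ θ a r hθ ha hr
  set β : Fin (r + 1) → 𝓞 L := fun i => (a : 𝓞 L) ^ (r - (i : ℕ)) * θ ^ (i : ℕ) with hβ
  have h1r : 1 < r + 1 := by omega
  have haL : (a : L) ≠ 0 := by exact_mod_cast ha
  have hb0 : β 0 = (a : 𝓞 L) ^ r := by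
    rw [hβ]
    simp
  have hb1 : β ⟨1, h1r⟩ = (a : 𝓞 L) ^ (r - 1) * θ := by
    rw [hβ]
    simp
  have h0 : β 0 ≠ 0 := by
    rw [hb0]
    exact pow_ne_zero _ (by exact_mod_cast ha)
  have hgen : IntermediateField.adjoin K {(β ⟨1, h1r⟩ : L) / β 0} = ⊤ := by
    rw [hb0, hb1, eq_top_iff, ← hθ, IntermediateField.adjoin_simple_le_iff]
    have h2 : (θ : L) = (((a : 𝓞 L) ^ (r - 1) * θ : 𝓞 L) : L) / (((a : 𝓞 L) ^ r : 𝓞 L) : L) * a := by
      have h3 : r = (r - 1) + 1 := by omega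
      have h4 : (((a : 𝓞 L) ^ r : 𝓞 L) : L) = (a : L) ^ (r - 1) * a := by
        conv_lhs => rw [h3]
        rw [pow_succ]
        push_cast
        rfl
      rw [h4]
      push_cast
      field_simp
    rw [h2]
    refine mul_mem (IntermediateField.mem_adjoin_simple_self K _) (natCast_mem _ a)
  obtain ⟨Bad, h⟩ := smallB K L (r + 1) β 0 ⟨1, h1r⟩ h0 hgen
  refine ⟨Bad, fun κ hκ => ?_⟩
  obtain ⟨δ, ν, C, hδ, hν, hC⟩ := h κ hκ
  refine ⟨δ, ν, C, hδ, hν, fun B hB => ?_⟩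
  have := hC B hB
  push_cast at this
  exact this

end Pool.Agent.V7H60.CV
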