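import Pool.Agent.V7H60.CV.Loc

/-! CV/SMALLB: the part of small primes with double zeros is rarely large. -/

set_option autoImplicit false

open Finset

namespace Pool.Agent.V7H60.CV

open NumberField IsDedekindDomain Module Pool.Agent.N753.DR Pool.Agent.N262.DR

section

variable {K L : Type} [Field K] [NumberField K] [Field L] [NumberField L] [Algebra K L] {m : ℕ}
variable {β : Fin m → 𝓞 L} {i0 i1 : Fin m} {Bad : Finset (HeightOneSpectrum (𝓞 K))}

theorem sz_tr (z : ℕ × ℕ) (j : Fin m) {q : ℕ} (h1 : z.1 < q) (h2 : z.2 < q) :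
    sz (tr K i0 i1 z j) ≤ 2 * q * sz (1 : 𝓞 K) := by
  have h3 : tr K i0 i1 z j = (((if j = i0 then z.1 else 0) + (if j = i1 then z.2 else 0) : ℕ) :
      𝓞 K) := by
    rw [tr, Pi.add_apply, Nat.cast_add]
    congr 1
    · by_cases h : j = i0
      · subst h; simp
      · simp [h]
    · by_cases h : j = i1
      · subst h; simp
      · simp [h]
  rw [h3]
  refine (sz_nat _).trans (Nat.mul_le_mul_right _ ?_)
  split_ifs <;> omega

/-- the number of points of the box which satisfy the conditions for `q` -/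
theorem count_q (hG : Good β i0 i1 Bad) {q : ℕ} (hq : q ≠ 0) (B : ℕ) :
    {c ∈ Bx K m B | ∀ p ∈ q.primeFactors, LC β Bad c p (q.factorization p)}.ncard * q ≤
      tau K L ^ q.primeFactors.card * (Bx K m (B + 2 * q * sz (1 : 𝓞 K))).ncard := by
  classical
  have hbf := Bx_finite (K := K) m (B + 2 * q * sz (1 : 𝓞 K))
  have hSf : {c ∈ Bx K m B | ∀ p ∈ q.primeFactors, LC β Bad c p (q.factorization p)}.Finite :=
    (Bx_finite (K := K) m B).subset fun c hc => hc.1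
  rw [Set.ncard_eq_toFinset_card _ hSf, Set.ncard_eq_toFinset_card _ hbf]
  have h := Pool.Agent.N340.DR.dcount hSf.toFinset hbf.toFinset (range q ×ˢ range q)
    (tr K i0 i1) (tau K L ^ q.primeFactors.card * q) (by
      intro c hc z hz
      rw [Set.Finite.mem_toFinset] at hc ⊢
      rw [mem_product, mem_range, mem_range] at hz
      intro j
      exact (sz_sub _ _).trans (Nat.add_le_add (hc.1 j) (sz_tr z j hz.1 hz.2))) (by
      intro Q _
      have h1 := Pool.Agent.N340.DR.crt hq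
        (fun p z => LC β Bad (Q + tr K i0 i1 z) p (q.factorization p))
        (fun p => tau K L * p ^ q.factorization p)
        (fun p _ z hz => mod_LC Q z hz)
        (fun p hp => card_loc hG (Nat.prime_of_mem_primeFactors hp) Q)
      have h2 : ∏ p ∈ q.primeFactors, (tau K L * p ^ q.factorization p) =
          tau K L ^ q.primeFactors.card * q := by
        rw [prod_mul_distrib, prod_const]
        congr 1
        exact Nat.prod_factorization_pow_eq_self hq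
      rw [h2] at h1
      refine le_trans (card_le_card ?_) h1
      intro z hz
      rw [mem_filter] at hz ⊢
      refine ⟨hz.1, ?_⟩
      have h3 := hz.2
      rw [Set.Finite.mem_toFinset] at h3
      exact h3.2)
  rw [card_product, card_range] at h
  have hq0 : 0 < q := Nat.pos_of_ne_zero hq
  refine Nat.le_of_mul_le_mul_right ?_ hq0
  calc _ = hSf.toFinset.card * (q * q) := by ring
    _ ≤ _ := h
    _ = _ := by ring

theorem LC_mono {c : Fin m → 𝓞 K} {p e : ℕ} (h : LC β Bad c p (e + 1)) (he : 2 ≤ e) :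
    LC β Bad c p e := by
  obtain ⟨v, hv, hpv, ⟨w, hw, h1⟩ | ⟨he', -⟩⟩ := h
  · exact ⟨v, hv, hpv, Or.inl ⟨w, hw, Ideal.pow_le_pow_right (Nat.le_succ e) h1⟩⟩
  · omega

/-- admissible numbers -/
def Adm (β : Fin m → 𝓞 L) (Bad : Finset (HeightOneSpectrum (𝓞 K))) (c : Fin m → 𝓞 K) (y : ℝ)
    (q : ℕ) : Prop :=
  q ≠ 0 ∧ ∀ p ∈ q.primeFactors, 2 ≤ q.factorization p ∧ (p : ℝ) ≤ y ∧
    LC β Bad c p (q.factorization p)

theorem fact_div {q p k : ℕ} (hp : p.Prime) (h : p ^ k ∣ q) (r : ℕ) :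
    (q / p ^ k).factorization r = q.factorization r - if r = p then k else 0 := by
  rw [Nat.factorization_div h, Finsupp.tsub_apply, hp.factorization_pow]
  congr 1
  rw [Finsupp.single_apply]
  by_cases hr : r = p
  · rw [if_pos hr, if_pos hr.symm]
  · rw [if_neg hr, if_neg (fun h => hr h.symm)]

theorem step {c : Fin m → 𝓞 K} {y : ℝ} (q : ℕ) (hA : Adm β Bad c y q) (hq1 : q ≠ 1)
    (hy : 1 ≤ y) :
    ∃ q' d, q = q' * d ∧ Adm β Bad c y q' ∧ 2 ≤ d ∧ (d : ℝ) ≤ y ^ 2 := by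
  obtain ⟨hq0, hA⟩ := hA
  set p := q.minFac with hp
  have hpp : p.Prime := Nat.minFac_prime hq1
  have hpq : p ∣ q := Nat.minFac_dvd q
  have hpm : p ∈ q.primeFactors := Nat.mem_primeFactors.2 ⟨hpp, hpq, hq0⟩
  obtain ⟨h2, hpy, hLC⟩ := hA p hpm
  have hp2 := hpp.two_le
  have key : ∀ k : ℕ, 1 ≤ k → k ≤ 2 → (k = 2 ↔ q.factorization p = 2) →
      ∃ q' d, q = q' * d ∧ Adm β Bad c y q' ∧ 2 ≤ d ∧ (d : ℝ) ≤ y ^ 2 := by
    intro k hk1 hk2 hk
    have hd : p ^ k ∣ q := (hpp.pow_dvd_iff_le_factorization hq0).2 (hk2.trans h2)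
    refine ⟨q / p ^ k, p ^ k, (Nat.div_mul_cancel hd).symm, ⟨?_, ?_⟩, ?_, ?_⟩
    · exact (Nat.div_pos (Nat.le_of_dvd (Nat.pos_of_ne_zero hq0) hd) (pow_pos hpp.pos k)).ne'
    · intro r hr
      have hrr := Nat.prime_of_mem_primeFactors hr
      have hrd := Nat.dvd_of_mem_primeFactors hr
      have hrq : r ∈ q.primeFactors :=
        Nat.mem_primeFactors.2 ⟨hrr, hrd.trans (Nat.div_dvd_of_dvd hd), hq0⟩
      have hr0 : (q / p ^ k).factorization r ≠ 0 := by
        rw [← Finsupp.mem_support_iff, Nat.support_factorization]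
        exact hr
      rw [fact_div hpp hd] at hr0 ⊢
      by_cases hrp : r = p
      · rw [if_pos hrp] at hr0 ⊢
        rw [hrp] at hr0 ⊢
        have hk' : k ≠ 2 := by
          intro h
          have := hk.1 h
          omega
        have hk1' : k = 1 := by omega
        have h3 : q.factorization p ≠ 2 := fun h => hk' (hk.2 h)
        subst hk1'
        refine ⟨by omega, hpy, ?_⟩
        refine LC_mono ?_ (by omega)
        have h4 : q.factorization p - 1 + 1 = q.factorization p := by omega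
        rw [h4]
        exact hLC
      · rw [if_neg hrp, Nat.sub_zero]
        exact hA r hrq
    · calc 2 ≤ p := hp2
        _ = p ^ 1 := (pow_one p).symm
        _ ≤ p ^ k := Nat.pow_le_pow_right hpp.pos hk1
    · have hp1 : (1 : ℝ) ≤ p := by exact_mod_cast hpp.one_lt.le
      push_cast
      calc (p : ℝ) ^ k ≤ (p : ℝ) ^ 2 := pow_le_pow_right₀ hp1 hk2
        _ ≤ y ^ 2 := pow_le_pow_left₀ (by linarith) hpy 2
  by_cases h3 : q.factorization p = 2
  · exact key 2 (by norm_num) le_rfl ⟨fun _ => h3, fun _ => rfl⟩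
  · exact key 1 le_rfl (by norm_num) ⟨fun h => by omega, fun h => absurd h h3⟩

theorem fact_prod {P : Finset ℕ} (hP : ∀ p ∈ P, p.Prime) (ee : ℕ → ℕ) (r : ℕ) :
    (∏ p ∈ P, p ^ ee p).factorization r = if r ∈ P then ee r else 0 := by
  rw [Nat.factorization_prod (fun p hp => pow_ne_zero _ (hP p hp).ne_zero), Finset.sum_apply']
  have h1 : ∀ p ∈ P, (p ^ ee p).factorization r = if p = r then ee r else 0 := by
    intro p hp
    rw [(hP p hp).factorization_pow, Finsupp.single_apply]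
    by_cases h : p = r
    · rw [if_pos h, if_pos h, h]
    · rw [if_neg h, if_neg h]
  rw [sum_congr rfl h1, sum_ite_eq']

/-- the number attached to a bad point -/
theorem exists_Q {c : Fin m → 𝓞 K} {y κ B : ℝ} {W : Finset (HeightOneSpectrum (𝓞 L))}
    (hW : ∀ w ∈ W, ∃ v ∉ Bad, w.asIdeal.LiesOver v.asIdeal ∧
        (Ideal.absNorm v.asIdeal : ℝ) ≤ y ∧ NSB β c v)
    {e : HeightOneSpectrum (𝓞 L) → ℕ} (he : ∀ w ∈ W, evB K β c ∈ w.asIdeal ^ e w)
    (hκ : κ * Real.log B ≤ ∑ w ∈ W, e w * lN w) :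
    ∃ Q : ℕ, Adm β Bad c y Q ∧ κ * Real.log B ≤ (finrank ℚ L : ℝ) ^ 2 * Real.log Q := by
  classical
  choose pr hpr1 hpr2 using fun w : HeightOneSpectrum (𝓞 L) => exists_prime w
  set P := W.image pr with hP
  set E : ℕ → ℕ := fun p => (W.filter fun w => pr w = p).sup e with hE
  set ee : ℕ → ℕ := fun p => max 2 (E p) with hee
  set Q := ∏ p ∈ P, p ^ ee p with hQ
  have hPp : ∀ p ∈ P, p.Prime := by
    intro p hp
    obtain ⟨w, -, rfl⟩ := mem_image.1 hp
    exact hpr1 w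
  have hQ0 : Q ≠ 0 := Finset.prod_ne_zero_iff.2 fun p hp => pow_ne_zero _ (hPp p hp).ne_zero
  refine ⟨Q, ⟨hQ0, ?_⟩, ?_⟩
  · intro p hp
    have h1 : Q.factorization p ≠ 0 := by
      rw [← Finsupp.mem_support_iff, Nat.support_factorization]
      exact hp
    rw [fact_prod hPp] at h1 ⊢
    have hpP : p ∈ P := by
      by_contra h
      exact h1 (if_neg h)
    rw [if_pos hpP]
    obtain ⟨w1, hw1, hw1p⟩ := mem_image.1 hpP
    obtain ⟨w0, hw0, hw0e⟩ := Finset.exists_mem_eq_sup (W.filter fun w => pr w = p)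
      ⟨w1, mem_filter.2 ⟨hw1, hw1p⟩⟩ e
    rw [mem_filter] at hw0
    obtain ⟨hw0W, hw0p⟩ := hw0
    obtain ⟨v, hv, hwv, hvy, hN⟩ := hW w0 hw0W
    have hpv : (p : 𝓞 K) ∈ v.asIdeal := by
      rw [← Pool.Agent.N147.DR.under_mem hwv, map_natCast, ← hw0p]
      exact hpr2 w0
    refine ⟨le_max_left _ _, ?_, v, hv, hpv, ?_⟩
    · have h2 := prime_le_norm v p (hPp p hpP) hpv
      have h3 : (p : ℝ) ≤ Ideal.absNorm v.asIdeal := by exact_mod_cast h2
      exact h3.trans hvy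
    · by_cases h4 : 2 ≤ E p
      · left
        refine ⟨w0, hwv, ?_⟩
        have h5 : ee p = e w0 := by
          rw [hee]
          simp only
          rw [max_eq_right h4]
          exact hw0e
        rw [h5]
        exact he w0 hw0W
      · right
        refine ⟨?_, hN⟩
        rw [hee]
        simp only
        exact max_eq_left (by omega)
  · refine hκ.trans ?_
    have hlog : Real.log Q = ∑ p ∈ P, ee p * Real.log p := by
      rw [hQ, Nat.cast_prod, Real.log_prod (fun p hp => by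
        have := (hPp p hp).ne_zero
        positivity)]
      refine sum_congr rfl fun p _ => ?_
      rw [Nat.cast_pow, Real.log_pow]
    rw [hlog, ← sum_fiberwise_of_maps_to (g := pr) (t := P) (fun w hw => mem_image_of_mem pr hw),
      mul_sum]
    refine sum_le_sum fun p hp => ?_
    have hpp := hPp p hp
    have hlp : 0 ≤ Real.log p := Real.log_natCast_nonneg p
    have h1 : ∀ w ∈ W.filter (fun w => pr w = p),
        (e w : ℝ) * lN w ≤ ee p * (finrank ℚ L * Real.log p) := by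
      intro w hw
      have hwp := (mem_filter.1 hw).2
      have h2 : e w ≤ ee p := (Finset.le_sup (f := e) hw).trans (le_max_right _ _)
      have h3 : lN w ≤ finrank ℚ L * Real.log p := by
        rw [lN, ← Real.log_pow]
        have h4 := norm_le_pow w p hpp (by rw [← hwp]; exact hpr2 w)
        have h5 := Pool.Agent.N147.DR.two_le_norm w
        refine Real.log_le_log (by positivity) ?_
        exact_mod_cast h4
      have h4 : 0 ≤ lN w := Real.log_natCast_nonneg _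
      exact mul_le_mul (by exact_mod_cast h2) h3 h4 (by positivity)
    have h2 : (W.filter fun w => pr w = p).card ≤ finrank ℚ L := by
      have h3 := (over_fin (K := L) p hpp)
      refine le_trans ?_ h3.2
      rw [Set.ncard_eq_toFinset_card _ h3.1]
      refine card_le_card fun w hw => ?_
      rw [Set.Finite.mem_toFinset]
      show (p : 𝓞 L) ∈ w.asIdeal
      rw [← (mem_filter.1 hw).2]
      exact hpr2 w
    calc ∑ w ∈ W.filter (fun w => pr w = p), (e w : ℝ) * lN w ≤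
        ∑ _w ∈ W.filter (fun w => pr w = p), (ee p : ℝ) * (finrank ℚ L * Real.log p) :=
          sum_le_sum h1
      _ = (W.filter fun w => pr w = p).card * ((ee p : ℝ) * (finrank ℚ L * Real.log p)) := by
          rw [sum_const, nsmul_eq_mul]
      _ ≤ finrank ℚ L * ((ee p : ℝ) * (finrank ℚ L * Real.log p)) := by
          refine mul_le_mul_of_nonneg_right (by exact_mod_cast h2) (by positivity)
      _ = _ := by ring

end

theorem smallB : StmSmallB := by
  classical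
  intro K L _ _ _ _ _ m β i0 i1 h0 hgen
  obtain ⟨Bad, hBad⟩ := Pool.Agent.N394.CV.t K L m β i0 i1 h0 hgen
  have hG : Good β i0 i1 Bad := fun v hv => by
    obtain ⟨g0, g1, g2, g3, -, -, g4, g5⟩ := hBad v hv
    exact ⟨g0, g1, g2, g3, g4, g5⟩
  refine ⟨Bad, fun κ hκ => ?_⟩
  set nL := finrank ℚ L with hnL
  have hnL0 : 0 < nL := Module.finrank_pos
  have hnLr : (0 : ℝ) < nL := by exact_mod_cast hnL0
  set κ1 : ℝ := min (κ / (nL : ℝ) ^ 2) (1 / 2) with hκ1
  have hκ10 : 0 < κ1 := lt_min (by positivity) (by norm_num)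
  have hτ1 : 1 ≤ tau K L := by
    rw [tau]
    have : 0 < finrank ℚ L := Module.finrank_pos
    omega
  obtain ⟨C1, hC1, hsum⟩ := Pool.Agent.N340.DR.sum_bound
  obtain ⟨C2, hC2, htau⟩ := Pool.Agent.N340.DR.tau_bound hτ1
  set N := finrank ℚ K * m with hN
  set D : ℝ := (4 * (sz (1 : 𝓞 K) : ℝ) + 3) ^ N with hD
  have hD0 : 0 < D := by positivity
  refine ⟨1 / 4, κ1 / 8, C2 * D * C1, by norm_num, by positivity, ?_⟩
  intro B hB
  have hB1 : (1 : ℝ) ≤ B := by exact_mod_cast hB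
  have hB0 : (0 : ℝ) < B := by linarith
  set X : ℝ := (B : ℝ) ^ κ1 with hX
  set y : ℝ := (B : ℝ) ^ (1 / 4 : ℝ) with hy
  have hX1 : 1 ≤ X := Real.one_le_rpow hB1 hκ10.le
  have hy1 : 1 ≤ y := Real.one_le_rpow hB1 (by norm_num)
  have hXy : X * y ^ 2 ≤ B := by
    rw [hX, hy, ← Real.rpow_natCast, ← Real.rpow_mul hB0.le, ← Real.rpow_add hB0]
    nth_rewrite 2 [← Real.rpow_one (B : ℝ)]
    apply Real.rpow_le_rpow_of_exponent_le hB1
    have : κ1 ≤ 1 / 2 := min_le_right _ _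
    push_cast
    linarith
  set Sq : ℕ → Set (Fin m → 𝓞 K) := fun q =>
    {c ∈ Bx K m B | ∀ p ∈ q.primeFactors, LC β Bad c p (q.factorization p)} with hSq
  have hSqf : ∀ q, (Sq q).Finite := fun q => (Bx_finite (K := K) m B).subset fun c hc => hc.1
  set Z0 := (Icc 1 B ×ˢ Icc 1 B).filter
    (fun z : ℕ × ℕ => X ≤ ((z.1 ^ 2 * z.2 ^ 3 : ℕ) : ℝ)) with hZ0
  set Z := Z0.filter (fun z : ℕ × ℕ => z.1 ^ 2 * z.2 ^ 3 ≤ B) with hZ
  -- the covering
  have hcov : {c ∈ Bx K m B | ∃ W : Finset (HeightOneSpectrum (𝓞 L)),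
      (∀ w ∈ W, ∃ v ∉ Bad, w.asIdeal.LiesOver v.asIdeal ∧
        (Ideal.absNorm v.asIdeal : ℝ) ≤ (B : ℝ) ^ (1 / 4 : ℝ) ∧ NSB β c v) ∧
      ∃ e : HeightOneSpectrum (𝓞 L) → ℕ, (∀ w ∈ W, evB K β c ∈ w.asIdeal ^ e w) ∧
        κ * Real.log B ≤ ∑ w ∈ W, e w * lN w} ⊆ ⋃ z ∈ Z, Sq (z.1 ^ 2 * z.2 ^ 3) := by
    rintro c ⟨hc, W, hW, e, he, hs⟩
    obtain ⟨Q, hQ, hQl⟩ := exists_Q hW he hs
    have hQ0 : (0 : ℝ) < Q := by
      have := Nat.pos_of_ne_zero hQ.1
      exact_mod_cast this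
    have hXQ : X ≤ Q := by
      rw [hX, ← Real.log_le_log_iff (by positivity) hQ0, Real.log_rpow hB0]
      have h1 : κ1 ≤ κ / (nL : ℝ) ^ 2 := min_le_left _ _
      have hlB : 0 ≤ Real.log B := Real.log_nonneg hB1
      have h2 : κ / (nL : ℝ) ^ 2 * Real.log B ≤ Real.log Q := by
        rw [div_mul_eq_mul_div, div_le_iff₀ (by positivity)]
        linarith
      exact (mul_le_mul_of_nonneg_right h1 hlB).trans h2
    obtain ⟨q, hq, hXq, hqX⟩ := Pool.Agent.N340.DR.descend (Adm β Bad c y) hy1 hX1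
      (fun q hq h1 => step q hq h1 hy1) (fun q hq => hq.1) Q hQ hXQ
    obtain ⟨x, t, hxt⟩ := Pool.Agent.N340.DR.pow_rep hq.1 fun p hp => (hq.2 p hp).1
    have hqB : q ≤ B := by
      have : (q : ℝ) ≤ B := hqX.trans hXy
      exact_mod_cast this
    have hx0 : x ≠ 0 := by
      rintro rfl
      exact hq.1 (by rw [hxt]; ring)
    have ht0 : t ≠ 0 := by
      rintro rfl
      exact hq.1 (by rw [hxt]; ring)
    have hxq : x ≤ q := by
      rw [hxt]
      calc x ≤ x ^ 2 := Nat.le_self_pow (by norm_num) x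
        _ ≤ x ^ 2 * t ^ 3 := Nat.le_mul_of_pos_right _ (pow_pos (Nat.pos_of_ne_zero ht0) 3)
    have htq : t ≤ q := by
      rw [hxt]
      calc t ≤ t ^ 3 := Nat.le_self_pow (by norm_num) t
        _ ≤ x ^ 2 * t ^ 3 := Nat.le_mul_of_pos_left _ (pow_pos (Nat.pos_of_ne_zero hx0) 2)
    rw [Set.mem_iUnion₂]
    refine ⟨(x, t), ?_, ?_⟩
    · rw [hZ, mem_filter, hZ0, mem_filter, mem_product, mem_Icc, mem_Icc]
      simp only
      rw [← hxt]
      exact ⟨⟨⟨⟨Nat.one_le_iff_ne_zero.2 hx0, hxq.trans hqB⟩, Nat.one_le_iff_ne_zero.2 ht0,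
        htq.trans hqB⟩, hXq⟩, hqB⟩
    · simp only
      rw [← hxt]
      exact ⟨hc, fun p hp => (hq.2 p hp).2.2⟩
  have hfin : (⋃ z ∈ Z, Sq (z.1 ^ 2 * z.2 ^ 3)).Finite :=
    Set.Finite.biUnion Z.finite_toSet fun z _ => hSqf _
  -- the bound for one `q`
  have hone : ∀ z ∈ Z, ((Sq (z.1 ^ 2 * z.2 ^ 3)).ncard : ℝ) ≤
      C2 * D * (B : ℝ) ^ N * (((z.1 ^ 2 * z.2 ^ 3 : ℕ) : ℝ)) ^ (-(7 / 8) : ℝ) := by
    intro z hz
    rw [hZ, mem_filter, hZ0, mem_filter, mem_product, mem_Icc, mem_Icc] at hz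
    obtain ⟨⟨⟨⟨hz1, -⟩, hz2, -⟩, -⟩, hzB⟩ := hz
    set q := z.1 ^ 2 * z.2 ^ 3 with hq
    have hq0 : q ≠ 0 := by
      rw [hq]
      have h1 : 0 < z.1 := hz1
      have h2 : 0 < z.2 := hz2
      positivity
    have hqr : (0 : ℝ) < q := by
      have := Nat.pos_of_ne_zero hq0
      exact_mod_cast this
    have h1 : ((Sq q).ncard : ℝ) * q ≤ (tau K L : ℝ) ^ q.primeFactors.card *
        ((Bx K m (B + 2 * q * sz (1 : 𝓞 K))).ncard : ℝ) := by
      exact_mod_cast count_q hG hq0 B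
    have h2 : ((Bx K m (B + 2 * q * sz (1 : 𝓞 K))).ncard : ℝ) ≤ D * (B : ℝ) ^ N := by
      have h3 := Bx_card (K := K) m (B + 2 * q * sz (1 : 𝓞 K))
      have h4 : ((Bx K m (B + 2 * q * sz (1 : 𝓞 K))).ncard : ℝ) ≤
          (2 * ((B : ℝ) + 2 * q * sz (1 : 𝓞 K)) + 1) ^ N := by
        rw [hN]
        exact_mod_cast h3
      refine h4.trans ?_
      rw [hD, ← mul_pow]
      apply pow_le_pow_left₀ (by positivity)
      have h5 : (q : ℝ) ≤ B := by exact_mod_cast hzB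
      have h6 : (0 : ℝ) ≤ sz (1 : 𝓞 K) := Nat.cast_nonneg _
      nlinarith
    have h3 := htau q hq0
    have h4 : ((Sq q).ncard : ℝ) * q ≤ C2 * (q : ℝ) ^ (1 / 8 : ℝ) * (D * (B : ℝ) ^ N) := by
      refine h1.trans (mul_le_mul h3 h2 (by positivity) (by positivity))
    have h5 : (q : ℝ) ^ (-(7 / 8) : ℝ) * q = (q : ℝ) ^ (1 / 8 : ℝ) := by
      nth_rewrite 2 [← Real.rpow_one (q : ℝ)]
      rw [← Real.rpow_add hqr]
      norm_num
    have h6 : ((Sq q).ncard : ℝ) * q ≤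
        (C2 * D * (B : ℝ) ^ N * (q : ℝ) ^ (-(7 / 8) : ℝ)) * q := by
      rw [mul_assoc (C2 * D * (B : ℝ) ^ N), h5]
      refine h4.trans (le_of_eq (by ring))
    exact le_of_mul_le_mul_right h6 hqr
  have hunion : (⋃ z ∈ Z, Sq (z.1 ^ 2 * z.2 ^ 3)).ncard ≤
      ∑ z ∈ Z, (Sq (z.1 ^ 2 * z.2 ^ 3)).ncard :=
    Finset.set_ncard_biUnion_le Z _
  have hfinal : (B : ℝ) ^ N * X ^ (-(1 / 8) : ℝ) =
      (B : ℝ) ^ ((finrank ℚ K : ℝ) * m - κ1 / 8) := by
    rw [hX, ← Real.rpow_mul hB0.le, ← Real.rpow_natCast, ← Real.rpow_add hB0]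
    congr 1
    rw [hN]
    push_cast
    ring
  calc _ ≤ ((⋃ z ∈ Z, Sq (z.1 ^ 2 * z.2 ^ 3)).ncard : ℝ) := by
        exact_mod_cast Set.ncard_le_ncard hcov hfin
    _ ≤ ∑ z ∈ Z, ((Sq (z.1 ^ 2 * z.2 ^ 3)).ncard : ℝ) := by exact_mod_cast hunion
    _ ≤ ∑ z ∈ Z, C2 * D * (B : ℝ) ^ N * (((z.1 ^ 2 * z.2 ^ 3 : ℕ) : ℝ)) ^ (-(7 / 8) : ℝ) :=
        sum_le_sum hone
    _ ≤ ∑ z ∈ Z0, C2 * D * (B : ℝ) ^ N * (((z.1 ^ 2 * z.2 ^ 3 : ℕ) : ℝ)) ^ (-(7 / 8) : ℝ) :=
        sum_le_sum_of_subset_of_nonneg (filter_subset _ _) fun _ _ _ => by positivity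
    _ = C2 * D * (B : ℝ) ^ N *
          ∑ z ∈ Z0, (((z.1 ^ 2 * z.2 ^ 3 : ℕ) : ℝ)) ^ (-(7 / 8) : ℝ) := by rw [mul_sum]
    _ ≤ C2 * D * (B : ℝ) ^ N * (C1 * X ^ (-(1 / 8) : ℝ)) :=
        mul_le_mul_of_nonneg_left (hsum B X hX1) (by positivity)
    _ = C2 * D * C1 * ((B : ℝ) ^ N * X ^ (-(1 / 8) : ℝ)) := by ring
    _ = _ := by rw [hfinal]

end Pool.Agent.V7H60.CV
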